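import Pool.Agent.H39.OCThm

open Subgroup
open scoped commutatorElement

namespace Pool.Agent.Results.MP_b7123c_al.NoDerivedLengthThree

open H39.OneConvex

/-- `r` is a total order on the group `G`, invariant under left and right multiplication. -/
structure IsBiOrder {G : Type*} [Group G] (r : G → G → Prop) : Prop where
  refl : ∀ a, r a a
  trans : ∀ a b c, r a b → r b c → r a c
  antisymm : ∀ a b, r a b → r b a → a = b
  total : ∀ a b, r a b ∨ r b a
  mul_left : ∀ a b c, r a b → r (c * a) (c * b)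
  mul_right : ∀ a b c, r a b → r (a * c) (b * c)

/-- `G` is linearly orderable. -/
def Orderable (G : Type*) [Group G] : Prop := ∃ r : G → G → Prop, IsBiOrder r

/-- `H` is convex for the order `r`. -/
def IsConvexFor {G : Type*} [Group G] (r : G → G → Prop) (H : Subgroup G) : Prop :=
  ∀ h₁ ∈ H, ∀ h₂ ∈ H, ∀ g, r h₁ g → r g h₂ → g ∈ H

/-- `H` is relatively convex: convex for some two-sided invariant total order on `G`. -/
def RelConvex {G : Type*} [Group G] (H : Subgroup G) : Prop :=
  ∃ r : G → G → Prop, IsBiOrder r ∧ IsConvexFor r H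

section aux

variable {G : Type*} [Group G]

/-- the linear order given by a bi-invariant total order relation -/
noncomputable def toLinearOrder {r : G → G → Prop} (h : IsBiOrder r) : LinearOrder G where
  le := r
  le_refl := h.refl
  le_trans := h.trans
  le_antisymm := h.antisymm
  le_total := h.total
  toDecidableLE := Classical.decRel r

theorem isBiOrder_of_cone {P : Set G} (hP : RelCone ⊤ ⊥ P) :
    IsBiOrder (fun a b : G => a = b ∨ a⁻¹ * b ∈ P) where
  refl := fun a => Or.inl rfl
  trans := by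
    rintro a b c (rfl | h1) (rfl | h2)
    · exact Or.inl rfl
    · exact Or.inr h2
    · exact Or.inr h1
    · right
      have := hP.mul _ h1 _ h2
      have e : a⁻¹ * b * (b⁻¹ * c) = a⁻¹ * c := by group
      rwa [e] at this
  antisymm := by
    rintro a b (rfl | h1) (h | h2)
    · rfl
    · rfl
    · exact h.symm
    · exfalso
      have h3 := hP.mul _ h1 _ h2
      have e : a⁻¹ * b * (b⁻¹ * a) = 1 := by group
      rw [e] at h3
      exact hP.disj _ h3 (Subgroup.mem_bot.mpr rfl)
  total := by
    intro a b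
    rcases hP.tot (a⁻¹ * b) trivial with h | h | h
    · left; left
      rw [Subgroup.mem_bot] at h
      exact (inv_mul_eq_one.mp h)
    · exact Or.inl (Or.inr h)
    · right; right
      have e : (a⁻¹ * b)⁻¹ = b⁻¹ * a := by group
      rwa [e] at h
  mul_left := by
    rintro a b c (rfl | h)
    · exact Or.inl rfl
    · right
      have e : (c * a)⁻¹ * (c * b) = a⁻¹ * b := by group
      rwa [e]
  mul_right := by
    rintro a b c (rfl | h)
    · exact Or.inl rfl
    · right
      have h1 := hP.conj _ h c⁻¹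
      have e : c⁻¹ * (a⁻¹ * b) * c⁻¹⁻¹ = (a * c)⁻¹ * (b * c) := by group
      rwa [e] at h1

/-- cone of a bi-order relative to a convex normal subgroup -/
theorem cone_of_convex {r : G → G → Prop} (h : IsBiOrder r) {K : Subgroup G} [hKn : K.Normal]
    (hK : IsConvexFor r K) : RelCone ⊤ K {a | r 1 a ∧ a ∉ K} := by
  letI : LinearOrder G := toLinearOrder h
  haveI : MulLeftMono G := ⟨fun c a b hab => h.mul_left a b c hab⟩
  haveI : MulRightMono G := ⟨fun c a b hab => h.mul_right a b c hab⟩
  have hC : Cvx K := fun a ha g h1 h2 => hK 1 K.one_mem a ha g h1 h2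
  have := relCone_of_cvx hC
  have e : {a : G | r 1 a ∧ a ∉ K} = {a | 1 < a ∧ a ∉ K} := by
    ext a
    constructor
    · rintro ⟨h1, h2⟩
      refine ⟨lt_of_le_of_ne h1 ?_, h2⟩
      rintro rfl
      exact h2 K.one_mem
    · rintro ⟨h1, h2⟩
      exact ⟨h1.le, h2⟩
  rw [e]
  exact this

theorem relConvex_bot_of_orderable (h : Orderable G) : ∃ P, RelCone (⊤ : Subgroup G) ⊥ P := by
  obtain ⟨r, hr⟩ := h
  refine ⟨_, cone_of_convex hr (K := ⊥) ?_⟩
  intro a ha b hb g h1 h2
  rw [Subgroup.mem_bot] at ha hb ⊢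
  subst ha; subst hb
  exact hr.antisymm _ _ h2 h1

/-- A normal subgroup with orderable quotient in an orderable group is relatively convex. -/
theorem relConvex_of_cone (h : Orderable G) {K : Subgroup G} [hKn : K.Normal] {P : Set G}
    (hP : RelCone ⊤ K P) : RelConvex K := by
  obtain ⟨Q, hQ⟩ := relConvex_bot_of_orderable h
  have hQ' := hQ.restrict (M := K)
  have hR := hP.trans le_top bot_le hQ'
  refine ⟨_, isBiOrder_of_cone hR, ?_⟩
  intro a ha b hb g h1 h2
  by_contra hg
  have hag : a⁻¹ * g ∉ K := fun h' => hg (by simpa using K.mul_mem ha h')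
  have hgb : g⁻¹ * b ∉ K := fun h' => hg (by
    have h3 := K.mul_mem hb (K.inv_mem h')
    have e : b * (g⁻¹ * b)⁻¹ = g := by group
    rwa [e] at h3)
  have h1' : a⁻¹ * g ∈ P := by
    rcases h1 with h1 | h1 | h1
    · exact absurd (by rw [h1]; simp [K.one_mem]) hag
    · exact h1
    · exact absurd h1.2 hag
  have h2' : g⁻¹ * b ∈ P := by
    rcases h2 with h2 | h2 | h2
    · exact absurd (by rw [h2]; simp [K.one_mem]) hgb
    · exact h2
    · exact absurd h2.2 hgb
  have h3 := hP.mul _ h1' _ h2'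
  have e : a⁻¹ * g * (g⁻¹ * b) = a⁻¹ * b := by group
  rw [e] at h3
  exact hP.disj _ h3 (K.mul_mem (K.inv_mem ha) hb)

theorem cone_of_relConvex {K : Subgroup G} [hKn : K.Normal] (h : RelConvex K) :
    ∃ P, RelCone ⊤ K P := by
  obtain ⟨r, hr, hK⟩ := h
  exact ⟨_, cone_of_convex hr hK⟩

theorem cone_quot {K : Subgroup G} [hKn : K.Normal] {P : Set G} (hP : RelCone ⊤ K P) :
    RelCone (⊤ : Subgroup (G ⧸ K)) ⊥ ((QuotientGroup.mk : G → G ⧸ K) '' P) where
  sub := fun _ _ => trivial
  mul := by
    rintro _ ⟨a, ha, rfl⟩ _ ⟨b, hb, rfl⟩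
    exact ⟨a * b, hP.mul a ha b hb, rfl⟩
  conj := by
    rintro _ ⟨a, ha, rfl⟩ g
    obtain ⟨g, rfl⟩ := QuotientGroup.mk_surjective g
    exact ⟨g * a * g⁻¹, hP.conj a ha g, rfl⟩
  disj := by
    rintro _ ⟨a, ha, rfl⟩ h
    rw [Subgroup.mem_bot, QuotientGroup.eq_one_iff] at h
    exact hP.disj a ha h
  tot := by
    intro a _
    obtain ⟨a, rfl⟩ := QuotientGroup.mk_surjective a
    rcases hP.tot a trivial with h | h | h
    · left; rw [Subgroup.mem_bot, QuotientGroup.eq_one_iff]; exact h
    · exact Or.inr (Or.inl ⟨a, h, rfl⟩)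
    · exact Or.inr (Or.inr ⟨a⁻¹, h, rfl⟩)
  mulK := by
    rintro a ha k hk
    rw [Subgroup.mem_bot] at hk
    rw [hk, mul_one]
    exact ha

theorem cone_comap {K : Subgroup G} [hKn : K.Normal] {L : Subgroup (G ⧸ K)} {P : Set (G ⧸ K)}
    (hP : RelCone ⊤ L P) :
    RelCone (⊤ : Subgroup G) (L.comap (QuotientGroup.mk' K))
      ((QuotientGroup.mk : G → G ⧸ K) ⁻¹' P) where
  sub := fun _ _ => trivial
  mul := fun a ha b hb => hP.mul _ ha _ hb
  conj := fun a ha g => hP.conj _ ha g
  disj := fun a ha h => hP.disj _ ha h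
  tot := fun a _ => hP.tot a trivial
  mulK := fun a ha k hk => hP.mulK _ ha _ hk

end aux

/-- No linearly orderable group of derived length exactly `3` has exactly one proper normal
relatively convex subgroup. -/
theorem result {G : Type*} [Group G] (hord : Orderable G) (h3 : derivedSeries G 3 = ⊥)
    (h2 : derivedSeries G 2 ≠ ⊥) :
    ¬ ∃! N : Subgroup G, N.Normal ∧ N ≠ ⊥ ∧ N ≠ ⊤ ∧ RelConvex N := by
  classical
  rintro ⟨N₀, ⟨hN₀n, hN₀b, hN₀t, hN₀c⟩, huniq⟩
  have hG1e : derivedSeries G 1 = commutator G := derivedSeries_one G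
  have hG2e : derivedSeries G 2 = ⁅commutator G, commutator G⁆ := by
    rw [show (2 : ℕ) = 1 + 1 from rfl, derivedSeries_succ, hG1e]
  have hG3e : derivedSeries G 3 =
      ⁅⁅commutator G, commutator G⁆, ⁅commutator G, commutator G⁆⁆ := by
    rw [show (3 : ℕ) = 2 + 1 from rfl, derivedSeries_succ, hG2e]
  have hG2c : ∀ x ∈ ⁅commutator G, commutator G⁆, ∀ y ∈ ⁅commutator G, commutator G⁆,
      x * y = y * x := by
    intro x hx y hy
    have h4 : ⁅x, y⁆ ∈ derivedSeries G 3 := by
      rw [hG3e]; exact Subgroup.commutator_mem_commutator hx hy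
    rw [h3, Subgroup.mem_bot] at h4
    exact commutatorElement_eq_one_iff_mul_comm.mp h4
  have hG1 : ∀ x y : G, ⁅x, y⁆ ∈ commutator G := fun x y =>
    Subgroup.commutator_mem_commutator (Subgroup.mem_top x) (Subgroup.mem_top y)
  -- the isolator of the derived subgroup
  let N : Subgroup G := (CommGroup.torsion (Abelianization G)).comap Abelianization.of
  have hNiff : ∀ x, x ∈ N ↔ ∃ m : ℕ, m ≠ 0 ∧ x ^ m ∈ commutator G := by
    intro x
    change IsOfFinOrder (Abelianization.of x) ↔ _
    rw [isOfFinOrder_iff_pow_eq_one]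
    constructor
    · rintro ⟨m, hm, h⟩
      refine ⟨m, by omega, ?_⟩
      rw [← map_pow] at h
      rw [← Abelianization.ker_of G, MonoidHom.mem_ker]
      exact h
    · rintro ⟨m, hm, h⟩
      refine ⟨m, by omega, ?_⟩
      rw [← map_pow]
      rw [← Abelianization.ker_of G, MonoidHom.mem_ker] at h
      exact h
  have hG1N : ∀ x ∈ commutator G, x ∈ N := fun x hx =>
    (hNiff x).mpr ⟨1, one_ne_zero, by simpa using hx⟩
  have hcN : ∀ x y : G, ⁅x, y⁆ ∈ N := fun x y => hG1N _ (hG1 x y)
  have hNn : N.Normal := inferInstance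
  have hiso : ∀ (x : G) (m : ℕ), m ≠ 0 → x ^ m ∈ N → x ∈ N := by
    intro x m hm hx
    obtain ⟨k, hk, hxk⟩ := (hNiff _).mp hx
    exact (hNiff x).mpr ⟨m * k, Nat.mul_ne_zero hm hk, by rw [pow_mul]; exact hxk⟩
  have hU : ∀ K : Subgroup G, K.Normal → (∃ P, RelCone ⊤ K P) → K = ⊥ ∨ K = N₀ ∨ K = ⊤ := by
    intro K hK hP
    by_cases hb : K = ⊥
    · exact Or.inl hb
    by_cases ht : K = ⊤
    · exact Or.inr (Or.inr ht)
    obtain ⟨P, hP⟩ := hP
    exact Or.inr (Or.inl (huniq K ⟨hK, hb, ht, relConvex_of_cone hord hP⟩))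
  by_cases hNt : N = ⊤
  · -- the quotient by `N₀`
    obtain ⟨P, hP⟩ := cone_of_relConvex hN₀c
    have hQ := cone_quot hP
    have hbo := isBiOrder_of_cone hQ
    letI : LinearOrder (G ⧸ N₀) := toLinearOrder hbo
    haveI : MulLeftMono (G ⧸ N₀) := ⟨fun c a b hab => hbo.mul_left a b c hab⟩
    haveI : MulRightMono (G ⧸ N₀) := ⟨fun c a b hab => hbo.mul_right a b c hab⟩
    have hcm : ∀ x ∈ commutator G, (QuotientGroup.mk x : G ⧸ N₀) ∈ commutator (G ⧸ N₀) := by
      intro x hx
      have h4 : (commutator G).map (QuotientGroup.mk' N₀) = commutator (G ⧸ N₀) := by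
        rw [commutator_def, commutator_def, Subgroup.map_commutator,
          Subgroup.map_top_of_surjective _ (QuotientGroup.mk'_surjective N₀)]
      rw [← h4]
      exact ⟨x, hx, rfl⟩
    have hcomm2 : ⁅commutator (G ⧸ N₀), commutator (G ⧸ N₀)⁆ =
        (⁅commutator G, commutator G⁆ : Subgroup G).map (QuotientGroup.mk' N₀) := by
      have h4 : (commutator G).map (QuotientGroup.mk' N₀) = commutator (G ⧸ N₀) := by
        rw [commutator_def, commutator_def, Subgroup.map_commutator,
          Subgroup.map_top_of_surjective _ (QuotientGroup.mk'_surjective N₀)]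
      rw [Subgroup.map_commutator, h4]
    have hroot : ∀ x : G ⧸ N₀, ∃ m : ℕ, m ≠ 0 ∧ x ^ m ∈ commutator (G ⧸ N₀) := by
      intro x
      obtain ⟨x, rfl⟩ := QuotientGroup.mk_surjective x
      obtain ⟨m, hm, h⟩ := (hNiff x).mp (by rw [hNt]; trivial)
      exact ⟨m, hm, hcm _ h⟩
    have hT := main_T (G := G ⧸ N₀) (N := ⊤) ?_ ?_ cvx_top ?_
    · apply hN₀t
      rw [eq_top_iff]
      intro x _
      obtain ⟨m, hm, h⟩ := hroot (QuotientGroup.mk x)
      have hbot : commutator (G ⧸ N₀) = ⊥ := by
        rw [commutator_def, Subgroup.commutator_eq_bot_iff_le_centralizer]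
        intro a _
        rw [Subgroup.mem_centralizer_iff]
        intro b _
        exact hT b trivial a trivial
      rw [hbot, Subgroup.mem_bot] at h
      have := eq_one_of_pow hm h
      rwa [QuotientGroup.eq_one_iff] at this
    · intro x hx y hy
      rw [hcomm2] at hx hy
      obtain ⟨x, hx, rfl⟩ := hx
      obtain ⟨y, hy, rfl⟩ := hy
      rw [← map_mul, ← map_mul, hG2c x hx y hy]
    · intro x
      exact ⟨fun _ => hroot x, fun _ => trivial⟩
    · intro K hK hP
      obtain ⟨P, hP⟩ := hP
      have h5 := hU (K.comap (QuotientGroup.mk' N₀)) inferInstance ⟨_, cone_comap hP⟩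
      have h6 : N₀ ≤ K.comap (QuotientGroup.mk' N₀) := by
        intro x hx
        rw [Subgroup.mem_comap]
        have : (QuotientGroup.mk' N₀) x = 1 := by
          rw [QuotientGroup.mk'_apply, QuotientGroup.eq_one_iff]; exact hx
        rw [this]
        exact K.one_mem
      rcases h5 with h | h | h
      · exfalso
        apply hN₀b
        rw [eq_bot_iff, ← h]
        exact h6
      · left
        rw [eq_bot_iff]
        intro q hq
        obtain ⟨x, rfl⟩ := QuotientGroup.mk_surjective q
        have : x ∈ K.comap (QuotientGroup.mk' N₀) := hq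
        rw [h] at this
        rw [Subgroup.mem_bot, QuotientGroup.eq_one_iff]
        exact this
      · right; right
        rw [eq_top_iff]
        intro q _
        obtain ⟨x, rfl⟩ := QuotientGroup.mk_surjective q
        have : x ∈ K.comap (QuotientGroup.mk' N₀) := by rw [h]; trivial
        exact this
  · -- `N` is the unique proper normal relatively convex subgroup
    obtain ⟨P, hP⟩ := exists_relCone_top N hcN hiso
    have hNc := relConvex_of_cone hord hP
    have hNb : N ≠ ⊥ := by
      intro h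
      apply h2
      rw [hG2e, eq_bot_iff, Subgroup.commutator_le]
      intro x hx y _
      have h4 : x ∈ N := hG1N x hx
      rw [h, Subgroup.mem_bot] at h4
      rw [h4, commutatorElement_one_left]
      exact Subgroup.one_mem _
    have hNN₀ : N = N₀ := huniq N ⟨hNn, hNb, hNt, hNc⟩
    obtain ⟨r, hr, hrN⟩ := hNc
    letI : LinearOrder G := toLinearOrder hr
    haveI : MulLeftMono G := ⟨fun c a b hab => hr.mul_left a b c hab⟩
    haveI : MulRightMono G := ⟨fun c a b hab => hr.mul_right a b c hab⟩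
    have hT := main_T hG2c hNiff (fun a ha g h1 h2 => hrN 1 N.one_mem a ha g h1 h2)
      (by rw [hNN₀]; exact hU)
    apply h2
    rw [hG2e, eq_bot_iff, Subgroup.commutator_le]
    intro x hx y hy
    rw [Subgroup.mem_bot, commutatorElement_eq_one_iff_mul_comm]
    exact hT x (hG1N x hx) y (hG1N y hy)

end Pool.Agent.Results.MP_b7123c_al.NoDerivedLengthThree
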